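import Mathlib

/-!
# Every lattice variety is defined by its symmetric identities

Let `t ≈ s` be an identity of the variety `V` which fails in the lattice `L`. In the lattice `M` of
the ideals of `L` there are a meet irreducible element `g` and a tuple `b` with `t(b) ≤ g` and
`s(b) ≰ g`. Let the tuple `a` consist of `b` and of more copies of `g` than `b` has entries, and let
`w₁` be the join of the variables which take the value `g`. Then `w₁(a) = g`, and `g ≤ w₁(a ∘ σ)` for
all permutations `σ` of the variables. Fix `σ`. If there is a term `u` with `u(a) ≤ g` and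
`u(a ∘ σ) ≰ g`, choose one and call it `w_σ`. If there is none, then, `σ` having finite order,
`u(a ∘ σ) ≤ g` implies `u(a) ≤ g` for all terms `u`, hence `s(a ∘ σ) ≰ g`. Let `W` be the join of
`w₁` and of the terms `w_σ`. The meets `T` and `S` over all `σ` of `(t ⊔ W)_σ` and of `(s ⊔ W)_σ`
are symmetric, `T ≈ S` holds in `V`, and `T(a) ≤ g < S(a)`. Since `M` satisfies the identities of
`L`, the identity `T ≈ S` fails in `L`.
-/

set_option autoImplicit false

namespace Pool.Agent.Results.MP_fa43b0_al.SymmetricPart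

universe u

/-- lattice terms with variables in `α` -/
inductive Term (α : Type) : Type
  | var (i : α) : Term α
  | sup (s t : Term α) : Term α
  | inf (s t : Term α) : Term α

/-- the term obtained by renaming the variables: `x_i` is replaced by `x_(f i)` -/
def Term.ren {α β : Type} (f : α → β) : Term α → Term β
  | .var i => .var (f i)
  | .sup s t => .sup (s.ren f) (t.ren f)
  | .inf s t => .inf (s.ren f) (t.ren f)

/-- the value of a term in a lattice -/
def Term.eval {α : Type} {L : Type u} [Lattice L] (a : α → L) : Term α → L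
  | .var i => a i
  | .sup s t => s.eval a ⊔ t.eval a
  | .inf s t => s.eval a ⊓ t.eval a

/-- equality of terms in lattice theory: the smallest congruence on the algebra of terms which
satisfies the axioms of lattices. The free lattice is the quotient by it. -/
inductive LatEq {α : Type} : Term α → Term α → Prop
  | refl (r : Term α) : LatEq r r
  | symm {r s : Term α} : LatEq r s → LatEq s r
  | trans {r s t : Term α} : LatEq r s → LatEq s t → LatEq r t
  | sup {r s r' s' : Term α} : LatEq r r' → LatEq s s' → LatEq (.sup r s) (.sup r' s')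
  | inf {r s r' s' : Term α} : LatEq r r' → LatEq s s' → LatEq (.inf r s) (.inf r' s')
  | sup_comm (r s : Term α) : LatEq (.sup r s) (.sup s r)
  | inf_comm (r s : Term α) : LatEq (.inf r s) (.inf s r)
  | sup_assoc (r s t : Term α) : LatEq (.sup (.sup r s) t) (.sup r (.sup s t))
  | inf_assoc (r s t : Term α) : LatEq (.inf (.inf r s) t) (.inf r (.inf s t))
  | sup_inf_self (r s : Term α) : LatEq (.sup r (.inf r s)) r
  | inf_sup_self (r s : Term α) : LatEq (.inf r (.sup r s)) r

/-- the setoid of `LatEq` -/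
def latSetoid (α : Type) : Setoid (Term α) where
  r := LatEq
  iseqv := ⟨LatEq.refl, LatEq.symm, LatEq.trans⟩

/-- the free lattice on `n` generators -/
def FL (n : ℕ) : Type := Quotient (latSetoid (Fin n))

/-- the element of the free lattice given by a term -/
def FL.mk {n : ℕ} (t : Term (Fin n)) : FL n := Quotient.mk (latSetoid (Fin n)) t

/-- the term `t` is symmetric: `t_σ = t` in the free lattice for all permutations `σ` -/
def Term.IsSymm {n : ℕ} (t : Term (Fin n)) : Prop :=
  ∀ σ : Equiv.Perm (Fin n), FL.mk (t.ren σ) = FL.mk t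

/-- a lattice identity `lhs ≈ rhs` with its arity (there are no terms of arity `0`) -/
structure Identity where
  /-- the number of variables -/
  arity : ℕ
  /-- the left side -/
  lhs : Term (Fin arity)
  /-- the right side -/
  rhs : Term (Fin arity)

/-- both sides of the identity are symmetric -/
def Identity.IsSymm (e : Identity) : Prop := e.lhs.IsSymm ∧ e.rhs.IsSymm

/-- the identity holds in the lattice `L` -/
def Identity.Holds (e : Identity) (L : Type u) [Lattice L] : Prop :=
  ∀ a : Fin e.arity → L, e.lhs.eval a = e.rhs.eval a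

/-- a class of lattices -/
def LatticeClass : Type (u + 1) := (L : Type u) → Lattice L → Prop

/-- the class of the lattices which satisfy all identities in `E` -/
def modelClass (E : Set Identity) : LatticeClass.{u} := fun L _ => ∀ e ∈ E, e.Holds L

/-- a lattice variety: a class of lattices defined by a set of identities -/
def IsVariety (V : LatticeClass.{u}) : Prop := ∃ E : Set Identity, V = modelClass E

/-- the identity holds in all members of the class -/
def Identity.HoldsIn (e : Identity) (V : LatticeClass.{u}) : Prop :=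
  ∀ (L : Type u) (inst : Lattice L), V L inst → e.Holds L

/-- the symmetric part of `V`: the class of all lattices which satisfy every symmetric identity
that holds in `V` -/
def symPart (V : LatticeClass.{u}) : LatticeClass.{u} :=
  modelClass {e | e.IsSymm ∧ e.HoldsIn V}

/-! ### The free lattice -/

instance instLatticeFL (n : ℕ) : Lattice (FL n) :=
  letI : Max (FL n) := ⟨Quotient.map₂ Term.sup (fun _ _ h _ _ k => LatEq.sup h k)⟩
  letI : Min (FL n) := ⟨Quotient.map₂ Term.inf (fun _ _ h _ _ k => LatEq.inf h k)⟩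
  Lattice.mk'
    (by
      rintro ⟨a⟩ ⟨b⟩
      exact Quotient.sound (s := latSetoid (Fin n)) (LatEq.sup_comm a b))
    (by
      rintro ⟨a⟩ ⟨b⟩ ⟨c⟩
      exact Quotient.sound (s := latSetoid (Fin n)) (LatEq.sup_assoc a b c))
    (by
      rintro ⟨a⟩ ⟨b⟩
      exact Quotient.sound (s := latSetoid (Fin n)) (LatEq.inf_comm a b))
    (by
      rintro ⟨a⟩ ⟨b⟩ ⟨c⟩
      exact Quotient.sound (s := latSetoid (Fin n)) (LatEq.inf_assoc a b c))
    (by
      rintro ⟨a⟩ ⟨b⟩
      exact Quotient.sound (s := latSetoid (Fin n)) (LatEq.sup_inf_self a b))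
    (by
      rintro ⟨a⟩ ⟨b⟩
      exact Quotient.sound (s := latSetoid (Fin n)) (LatEq.inf_sup_self a b))

theorem mk_sup {n : ℕ} (s t : Term (Fin n)) : FL.mk (.sup s t) = FL.mk s ⊔ FL.mk t := rfl

theorem mk_inf {n : ℕ} (s t : Term (Fin n)) : FL.mk (.inf s t) = FL.mk s ⊓ FL.mk t := rfl

theorem mk_eq_eval {n : ℕ} (t : Term (Fin n)) : FL.mk t = t.eval (fun i => FL.mk (.var i)) := by
  induction t with
  | var i => rfl
  | sup s t hs ht => rw [mk_sup, hs, ht]; rfl
  | inf s t hs ht => rw [mk_inf, hs, ht]; rfl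

/-! ### Terms -/

theorem eval_ren {α β : Type} {L : Type u} [Lattice L] (f : α → β) (a : β → L) (t : Term α) :
    (t.ren f).eval a = t.eval (a ∘ f) := by
  induction t with
  | var i => rfl
  | sup s t hs ht => simp only [Term.ren, Term.eval, hs, ht]
  | inf s t hs ht => simp only [Term.ren, Term.eval, hs, ht]

/-- join of finitely many terms -/
def bigSup {α : Type} (t : Term α) (l : List (Term α)) : Term α := l.foldr Term.sup t

/-- meet of finitely many terms -/
def bigInf {α : Type} (t : Term α) (l : List (Term α)) : Term α := l.foldr Term.inf t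

theorem bigSup_le {α : Type} {L : Type u} [Lattice L] (a : α → L) (t : Term α)
    (l : List (Term α)) (x : L) :
    (bigSup t l).eval a ≤ x ↔ t.eval a ≤ x ∧ ∀ r ∈ l, r.eval a ≤ x := by
  induction l with
  | nil => simp [bigSup]
  | cons r l ih =>
    have h : (bigSup t (r :: l)).eval a = r.eval a ⊔ (bigSup t l).eval a := rfl
    rw [h, sup_le_iff, ih]
    simp only [List.mem_cons, forall_eq_or_imp]
    tauto

theorem le_bigInf {α : Type} {L : Type u} [Lattice L] (a : α → L) (t : Term α)
    (l : List (Term α)) (x : L) :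
    x ≤ (bigInf t l).eval a ↔ x ≤ t.eval a ∧ ∀ r ∈ l, x ≤ r.eval a := by
  induction l with
  | nil => simp [bigInf]
  | cons r l ih =>
    have h : (bigInf t (r :: l)).eval a = r.eval a ⊓ (bigInf t l).eval a := rfl
    rw [h, le_inf_iff, ih]
    simp only [List.mem_cons, forall_eq_or_imp]
    tauto

theorem lt_bigInf {α : Type} {L : Type u} [Lattice L] (a : α → L) (t : Term α)
    (l : List (Term α)) (g : L) (hg : ∀ x y : L, g < x → g < y → g < x ⊓ y)
    (h1 : g < t.eval a) (h2 : ∀ r ∈ l, g < r.eval a) : g < (bigInf t l).eval a := by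
  induction l with
  | nil => exact h1
  | cons r l ih =>
    have h : (bigInf t (r :: l)).eval a = r.eval a ⊓ (bigInf t l).eval a := rfl
    rw [h]
    exact hg _ _ (h2 r (by simp)) (ih (fun r' hr' => h2 r' (by simp [hr'])))

/-! ### The symmetrization of a term -/

variable {ι : Type} [Fintype ι] [DecidableEq ι]

/-- the meet of all `t_σ` -/
noncomputable def symInf (t : Term ι) : Term ι :=
  bigInf t ((Finset.univ : Finset (Equiv.Perm ι)).toList.map
    (fun σ : Equiv.Perm ι => t.ren σ))

theorem le_symInf {L : Type u} [Lattice L] (a : ι → L) (t : Term ι) (x : L) :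
    x ≤ (symInf t).eval a ↔ ∀ σ : Equiv.Perm ι, x ≤ t.eval (a ∘ σ) := by
  unfold symInf
  rw [le_bigInf]
  constructor
  · rintro ⟨-, h⟩ σ
    have := h (t.ren σ) (List.mem_map.2 ⟨σ, by simp, rfl⟩)
    rwa [eval_ren] at this
  · intro h
    refine ⟨h 1, ?_⟩
    intro r hr
    obtain ⟨σ, -, rfl⟩ := List.mem_map.1 hr
    rw [eval_ren]
    exact h σ

theorem symInf_eq {L : Type u} [Lattice L] (a : ι → L) (s t : Term ι)
    (h : ∀ a : ι → L, s.eval a = t.eval a) : (symInf s).eval a = (symInf t).eval a := by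
  apply eq_of_forall_le_iff
  intro x
  rw [le_symInf, le_symInf]
  simp only [h]

theorem symInf_perm {L : Type u} [Lattice L] (a : ι → L) (t : Term ι) (τ : Equiv.Perm ι) :
    (symInf t).eval (a ∘ τ) = (symInf t).eval a := by
  apply eq_of_forall_le_iff
  intro x
  rw [le_symInf, le_symInf]
  constructor
  · intro h σ
    have := h (τ⁻¹ * σ)
    have e : (a ∘ τ) ∘ (τ⁻¹ * σ : Equiv.Perm ι) = a ∘ σ := by
      funext i
      simp
    rwa [e] at this
  · intro h σ
    exact h (τ * σ)

theorem lt_symInf {L : Type u} [Lattice L] (a : ι → L) (t : Term ι) (g : L)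
    (hg : ∀ x y : L, g < x → g < y → g < x ⊓ y)
    (h : ∀ σ : Equiv.Perm ι, g < t.eval (a ∘ σ)) : g < (symInf t).eval a := by
  unfold symInf
  apply lt_bigInf a _ _ g hg (h 1)
  intro r hr
  obtain ⟨σ, -, rfl⟩ := List.mem_map.1 hr
  rw [eval_ren]
  exact h σ

/-! ### The core of the proof -/

omit [DecidableEq ι] in
/-- a permutation of finite order cannot enlarge properly the set of terms with value `≤ g` -/
theorem back {L : Type u} [Lattice L] (a : ι → L) (g : L) (σ : Equiv.Perm ι)
    (h : ∀ r : Term ι, r.eval a ≤ g → r.eval (a ∘ σ) ≤ g) (r : Term ι)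
    (hr : r.eval (a ∘ σ) ≤ g) : r.eval a ≤ g := by
  have key : ∀ k : ℕ, r.eval (a ∘ (σ ^ (k + 1) : Equiv.Perm ι)) ≤ g := by
    intro k
    induction k with
    | zero => simpa using hr
    | succ k ih =>
      have h1 := h (r.ren (σ ^ (k + 1) : Equiv.Perm ι)) (by rw [eval_ren]; exact ih)
      rw [eval_ren] at h1
      have e : (a ∘ σ) ∘ (σ ^ (k + 1) : Equiv.Perm ι) = a ∘ (σ ^ (k + 1 + 1) : Equiv.Perm ι) := by
        funext i
        rw [pow_succ' σ (k + 1)]
        rfl
      rwa [e] at h1
  have h2 := key (orderOf σ - 1)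
  have h3 : orderOf σ - 1 + 1 = orderOf σ := Nat.sub_add_cancel (orderOf_pos σ)
  rw [h3, pow_orderOf_eq_one] at h2
  exact h2

theorem exists_inr {n : ℕ} (σ : Equiv.Perm (Fin n ⊕ Fin (n + 1))) :
    ∃ i k : Fin (n + 1), σ (Sum.inr i) = Sum.inr k := by
  by_contra h
  push Not at h
  have h' : ∀ i : Fin (n + 1), ∃ l : Fin n, σ (Sum.inr i) = Sum.inl l := by
    intro i
    rcases hσ : σ (Sum.inr i) with l | k
    · exact ⟨l, rfl⟩
    · exact absurd hσ (h i k)
  choose f hf using h'
  have hinj : Function.Injective f := by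
    intro i j hij
    have h3 : σ (Sum.inr i) = σ (Sum.inr j) := by rw [hf, hf, hij]
    simpa using σ.injective h3
  have := Fintype.card_le_of_injective f hinj
  simp at this

theorem core {n : ℕ} {M : Type u} [Lattice M] (g : M)
    (hg : ∀ x y : M, g < x → g < y → g < x ⊓ y) (t s : Term (Fin n)) (b : Fin n → M)
    (ht : t.eval b ≤ g) (hs : ¬ s.eval b ≤ g) :
    ∃ (W : Term (Fin n ⊕ Fin (n + 1))) (a : Fin n ⊕ Fin (n + 1) → M),
      ¬ (symInf (Term.sup (t.ren Sum.inl) W)).eval a =
        (symInf (Term.sup (s.ren Sum.inl) W)).eval a := by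
  classical
  set a : Fin n ⊕ Fin (n + 1) → M := Sum.elim b (fun _ => g) with ha
  have hab : a ∘ Sum.inl = b := by
    funext i
    rfl
  set w₁ : Term (Fin n ⊕ Fin (n + 1)) := bigSup (.var (Sum.inr 0))
    ((Finset.univ : Finset (Fin (n + 1))).toList.map (fun i => .var (Sum.inr i))) with hw₁
  have hw₁a : w₁.eval a ≤ g := by
    rw [hw₁, bigSup_le]
    refine ⟨le_refl _, ?_⟩
    intro r hr
    obtain ⟨i, -, rfl⟩ := List.mem_map.1 hr
    exact le_refl _
  have hw₁σ : ∀ σ : Equiv.Perm (Fin n ⊕ Fin (n + 1)), g ≤ w₁.eval (a ∘ σ) := by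
    intro σ
    obtain ⟨i, k, hik⟩ := exists_inr σ
    have h1 := (bigSup_le (a ∘ σ) (.var (Sum.inr 0))
      ((Finset.univ : Finset (Fin (n + 1))).toList.map (fun i => Term.var (Sum.inr i)))
      (w₁.eval (a ∘ σ))).1 (le_refl _)
    have h2 := h1.2 (.var (Sum.inr i)) (List.mem_map.2 ⟨i, by simp, rfl⟩)
    have h3 : (Term.var (Sum.inr i) : Term (Fin n ⊕ Fin (n + 1))).eval (a ∘ σ) = g := by
      change a (σ (Sum.inr i)) = g
      rw [hik]
      rfl
    rw [h3] at h2
    exact h2
  let w : Equiv.Perm (Fin n ⊕ Fin (n + 1)) → Term (Fin n ⊕ Fin (n + 1)) := fun σ =>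
    if h : ∃ r : Term (Fin n ⊕ Fin (n + 1)), r.eval a ≤ g ∧ ¬ r.eval (a ∘ σ) ≤ g then h.choose
    else w₁
  have hwa : ∀ σ, (w σ).eval a ≤ g := by
    intro σ
    by_cases h : ∃ r : Term (Fin n ⊕ Fin (n + 1)), r.eval a ≤ g ∧ ¬ r.eval (a ∘ σ) ≤ g
    · have e : w σ = h.choose := dif_pos h
      rw [e]
      exact h.choose_spec.1
    · have e : w σ = w₁ := dif_neg h
      rw [e]
      exact hw₁a
  set W : Term (Fin n ⊕ Fin (n + 1)) := bigSup w₁
    ((Finset.univ : Finset (Equiv.Perm (Fin n ⊕ Fin (n + 1)))).toList.map w) with hW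
  have hWa : W.eval a ≤ g := by
    rw [hW, bigSup_le]
    refine ⟨hw₁a, ?_⟩
    intro r hr
    obtain ⟨σ, -, rfl⟩ := List.mem_map.1 hr
    exact hwa σ
  have hW1 : ∀ σ : Equiv.Perm (Fin n ⊕ Fin (n + 1)),
      w₁.eval (a ∘ σ) ≤ W.eval (a ∘ σ) ∧ ∀ τ, (w τ).eval (a ∘ σ) ≤ W.eval (a ∘ σ) := by
    intro σ
    have h1 := (bigSup_le (a ∘ σ) w₁
      ((Finset.univ : Finset (Equiv.Perm (Fin n ⊕ Fin (n + 1)))).toList.map w)
      (W.eval (a ∘ σ))).1 (le_refl _)
    exact ⟨h1.1, fun τ => h1.2 (w τ) (List.mem_map.2 ⟨τ, by simp, rfl⟩)⟩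
  refine ⟨W, a, ?_⟩
  have hT : (symInf (Term.sup (t.ren Sum.inl) W)).eval a ≤ g := by
    have h1 := (le_symInf a (Term.sup (t.ren Sum.inl) W) _).1 (le_refl _) 1
    refine h1.trans ?_
    change (t.ren Sum.inl).eval a ⊔ W.eval a ≤ g
    rw [eval_ren, hab]
    exact sup_le ht hWa
  have hS : g < (symInf (Term.sup (s.ren Sum.inl) W)).eval a := by
    apply lt_symInf a _ g hg
    intro σ
    change g < (s.ren Sum.inl).eval (a ∘ σ) ⊔ W.eval (a ∘ σ)
    have hge : g ≤ (s.ren Sum.inl).eval (a ∘ σ) ⊔ W.eval (a ∘ σ) :=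
      (hw₁σ σ).trans ((hW1 σ).1.trans le_sup_right)
    refine lt_of_le_not_ge hge ?_
    intro hle
    by_cases h : ∃ r : Term (Fin n ⊕ Fin (n + 1)), r.eval a ≤ g ∧ ¬ r.eval (a ∘ σ) ≤ g
    · have e : w σ = h.choose := dif_pos h
      apply h.choose_spec.2
      rw [← e]
      exact ((hW1 σ).2 σ).trans (le_sup_right.trans hle)
    · push Not at h
      have h1 := back a g σ h (s.ren Sum.inl) (le_sup_left.trans hle)
      rw [eval_ren, hab] at h1
      exact hs h1
  intro heq
  rw [heq] at hT
  exact absurd hT (not_le_of_gt hS)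

/-! ### Ideals -/

theorem eval_mono {L : Type u} [Lattice L] {α : Type} {a b : α → L} (h : ∀ i, a i ≤ b i)
    (t : Term α) : t.eval a ≤ t.eval b := by
  induction t with
  | var i => exact h i
  | sup s t hs ht => exact sup_le_sup hs ht
  | inf s t hs ht => exact inf_le_inf hs ht

theorem mem_eval {L : Type u} [Lattice L] {α : Type} (I : α → Order.Ideal L)
    (t : Term α) (x : L) :
    x ∈ t.eval I ↔ ∃ c : α → L, (∀ i, c i ∈ I i) ∧ x ≤ t.eval c := by
  induction t generalizing x with
  | var i =>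
    classical
    constructor
    · intro h
      choose d hd using fun j => (I j).nonempty
      refine ⟨Function.update d i x, ?_, ?_⟩
      · intro j
        by_cases hj : j = i
        · subst hj
          rw [Function.update_self]
          exact h
        · rw [Function.update_of_ne hj]
          exact hd j
      · simp [Term.eval]
    · rintro ⟨c, hc, hx⟩
      exact (I i).lower hx (hc i)
  | sup s t hs ht =>
    change x ∈ s.eval I ⊔ t.eval I ↔ _
    rw [Order.Ideal.mem_sup]
    constructor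
    · rintro ⟨y, hy, z, hz, hx⟩
      obtain ⟨c, hc, hyc⟩ := (hs y).1 hy
      obtain ⟨d, hd, hzd⟩ := (ht z).1 hz
      refine ⟨fun i => c i ⊔ d i, fun i => Order.Ideal.sup_mem (hc i) (hd i), ?_⟩
      refine hx.trans (sup_le_sup ?_ ?_)
      · exact hyc.trans (eval_mono (fun i => le_sup_left) s)
      · exact hzd.trans (eval_mono (fun i => le_sup_right) t)
    · rintro ⟨c, hc, hx⟩
      exact ⟨s.eval c, (hs _).2 ⟨c, hc, le_refl _⟩, t.eval c, (ht _).2 ⟨c, hc, le_refl _⟩, hx⟩
  | inf s t hs ht =>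
    change x ∈ s.eval I ⊓ t.eval I ↔ _
    rw [Order.Ideal.mem_inf]
    constructor
    · rintro ⟨hy, hz⟩
      obtain ⟨c, hc, hyc⟩ := (hs x).1 hy
      obtain ⟨d, hd, hzd⟩ := (ht x).1 hz
      refine ⟨fun i => c i ⊔ d i, fun i => Order.Ideal.sup_mem (hc i) (hd i), ?_⟩
      refine le_inf ?_ ?_
      · exact hyc.trans (eval_mono (fun i => le_sup_left) s)
      · exact hzd.trans (eval_mono (fun i => le_sup_right) t)
    · rintro ⟨c, hc, hx⟩
      exact ⟨(hs _).2 ⟨c, hc, hx.trans inf_le_left⟩, (ht _).2 ⟨c, hc, hx.trans inf_le_right⟩⟩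

/-- the lattice of ideals satisfies the identities of the lattice -/
theorem ideal_holds {L : Type u} [Lattice L] {α : Type} (s t : Term α)
    (h : ∀ a : α → L, s.eval a = t.eval a) (I : α → Order.Ideal L) : s.eval I = t.eval I := by
  ext x
  change x ∈ s.eval I ↔ x ∈ t.eval I
  rw [mem_eval, mem_eval]
  simp only [h]

theorem eval_principal {L : Type u} [Lattice L] {α : Type} (a : α → L) (t : Term α) (x : L) :
    x ∈ t.eval (fun i => Order.Ideal.principal (a i)) ↔ x ≤ t.eval a := by
  rw [mem_eval]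
  constructor
  · rintro ⟨c, hc, hx⟩
    exact hx.trans (eval_mono (fun i => Order.Ideal.mem_principal.1 (hc i)) t)
  · intro h
    exact ⟨a, fun i => Order.Ideal.mem_principal_self, h⟩

/-- there is a meet irreducible ideal which contains the first element but not the second -/
theorem exists_ideal {L : Type u} [Lattice L] (x y : L) (hxy : ¬ y ≤ x) :
    ∃ G : Order.Ideal L, x ∈ G ∧ y ∉ G ∧
      ∀ I J : Order.Ideal L, G < I → G < J → G < I ⊓ J := by
  obtain ⟨G, -, hG⟩ := zorn_le_nonempty₀ {G : Order.Ideal L | x ∈ G ∧ y ∉ G} (by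
    intro c hc hchain I hI
    have hmem : ∀ z : L, z ∈ (⋃ J ∈ c, (J : Set L)) ↔ ∃ J ∈ c, z ∈ J := by
      intro z
      simp
    have hideal : Order.IsIdeal (⋃ J ∈ c, (J : Set L)) := by
      refine ⟨?_, ?_, ?_⟩
      · intro z z' hz' hz
        obtain ⟨J, hJ, hz⟩ := (hmem z).1 hz
        exact (hmem z').2 ⟨J, hJ, J.lower hz' hz⟩
      · exact ⟨x, (hmem x).2 ⟨I, hI, (hc hI).1⟩⟩
      · intro z hz z' hz'
        obtain ⟨J, hJ, hz⟩ := (hmem z).1 hz
        obtain ⟨J', hJ', hz'⟩ := (hmem z').1 hz'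
        rcases hchain.total hJ hJ' with h | h
        · exact ⟨z ⊔ z', (hmem _).2 ⟨J', hJ', Order.Ideal.sup_mem (h hz) hz'⟩, le_sup_left,
            le_sup_right⟩
        · exact ⟨z ⊔ z', (hmem _).2 ⟨J, hJ, Order.Ideal.sup_mem hz (h hz')⟩, le_sup_left,
            le_sup_right⟩
    refine ⟨hideal.toIdeal, ⟨(hmem x).2 ⟨I, hI, (hc hI).1⟩, ?_⟩, ?_⟩
    · intro h
      obtain ⟨J, hJ, hy⟩ := (hmem y).1 h
      exact (hc hJ).2 hy
    · intro J hJ z hz
      exact (hmem z).2 ⟨J, hJ, hz⟩) (Order.Ideal.principal x) (by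
      exact ⟨Order.Ideal.mem_principal_self, fun h => hxy (Order.Ideal.mem_principal.1 h)⟩)
  refine ⟨G, hG.1.1, hG.1.2, ?_⟩
  have key : ∀ I : Order.Ideal L, G < I → y ∈ I := by
    intro I hI
    by_contra hy
    exact absurd (hG.2 ⟨hI.le hG.1.1, hy⟩ hI.le) (not_le_of_gt hI)
  intro I J hI hJ
  refine lt_of_le_of_ne (le_inf hI.le hJ.le) ?_
  intro h
  apply hG.1.2
  rw [h]
  exact ⟨key I hI, key J hJ⟩

/-! ### The theorem -/

/-- the equivalence between the variables used in the proof and `Fin (n + (n + 1))` -/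
abbrev eqv (n : ℕ) : Fin n ⊕ Fin (n + 1) ≃ Fin (n + (n + 1)) := finSumFinEquiv

theorem isSymm_symInf {n : ℕ} (t : Term (Fin n ⊕ Fin (n + 1))) :
    ((symInf t).ren (eqv n)).IsSymm := by
  intro σ
  rw [mk_eq_eval, mk_eq_eval, eval_ren, eval_ren, eval_ren]
  set x : Fin (n + (n + 1)) → FL (n + (n + 1)) := fun i => FL.mk (.var i) with hx
  have e : (x ∘ σ) ∘ (eqv n) = (x ∘ (eqv n)) ∘ (((eqv n).trans σ).trans (eqv n).symm) := by
    funext i
    simp
  rw [e]
  exact symInf_perm (x ∘ (eqv n)) t (((eqv n).trans σ).trans (eqv n).symm)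

/-- if an identity fails in `L`, a symmetric consequence of it fails in `L` -/
theorem exists_symm {L : Type u} [Lattice L] {n : ℕ} (t s : Term (Fin n)) (b : Fin n → L)
    (h : ¬ s.eval b ≤ t.eval b) :
    ∃ e : Identity, e.IsSymm ∧
      (∀ (K : Type u) (_ : Lattice K), (∀ a : Fin n → K, t.eval a = s.eval a) → e.Holds K) ∧
      ¬ e.Holds L := by
  obtain ⟨G, hx, hy, hG⟩ := exists_ideal _ _ h
  obtain ⟨W, a, ha⟩ := core G hG t s (fun i => Order.Ideal.principal (b i))
    (by
      intro z hz
      exact G.lower ((eval_principal b t z).1 hz) hx)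
    (by
      intro hle
      exact hy (hle ((eval_principal b s _).2 (le_refl _))))
  refine ⟨⟨n + (n + 1), (symInf (Term.sup (t.ren Sum.inl) W)).ren (eqv n),
    (symInf (Term.sup (s.ren Sum.inl) W)).ren (eqv n)⟩, ⟨isSymm_symInf _, isSymm_symInf _⟩, ?_, ?_⟩
  · intro K _ hK c
    change ((symInf (Term.sup (t.ren Sum.inl) W)).ren (eqv n)).eval c =
      ((symInf (Term.sup (s.ren Sum.inl) W)).ren (eqv n)).eval c
    rw [eval_ren, eval_ren]
    apply symInf_eq
    intro d
    change (t.ren Sum.inl).eval d ⊔ W.eval d = (s.ren Sum.inl).eval d ⊔ W.eval d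
    rw [eval_ren, eval_ren, hK]
  · intro hL
    apply ha
    apply ideal_holds
    intro c
    have h1 := hL (c ∘ (eqv n).symm)
    change ((symInf (Term.sup (t.ren Sum.inl) W)).ren (eqv n)).eval (c ∘ (eqv n).symm) =
      ((symInf (Term.sup (s.ren Sum.inl) W)).ren (eqv n)).eval (c ∘ (eqv n).symm) at h1
    rw [eval_ren, eval_ren] at h1
    have e : (c ∘ (eqv n).symm) ∘ (eqv n) = c := by
      funext i
      simp
    rw [e] at h1
    exact h1

/-- Every lattice variety is equal to its symmetric part. -/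
theorem result (V : LatticeClass.{u}) (hV : IsVariety V) : symPart V = V := by
  obtain ⟨E, rfl⟩ := hV
  funext L inst
  apply propext
  constructor
  · intro hL e he
    by_contra hne
    unfold Identity.Holds at hne
    push Not at hne
    obtain ⟨b, hb⟩ := hne
    have hcase : ¬ e.rhs.eval b ≤ e.lhs.eval b ∨ ¬ e.lhs.eval b ≤ e.rhs.eval b := by
      by_contra h
      push Not at h
      exact hb (le_antisymm h.2 h.1)
    rcases hcase with h | h
    · obtain ⟨e', h1, h2, h3⟩ := exists_symm e.lhs e.rhs b h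
      exact h3 (hL e' ⟨h1, fun K instK hK => h2 K instK (hK e he)⟩)
    · obtain ⟨e', h1, h2, h3⟩ := exists_symm e.rhs e.lhs b h
      exact h3 (hL e' ⟨h1, fun K instK hK => h2 K instK (fun a => (hK e he a).symm)⟩)
  · rintro hL e ⟨-, he⟩
    exact he L inst hL

end Pool.Agent.Results.MP_fa43b0_al.SymmetricPart
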